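import Pool.Agent.Bsg.Data

/-!
All sums and alternating sums are attained by Golay pairs of length `2^(a+1) 10^b 26^c`
-/

set_option autoImplicit false

namespace Pool.Agent.Bsg

open Polynomial

/-- every quadruple of sums which is compatible with the two norms is attained -/
def Q (n : ℕ) : Prop := Even n ∧ 0 < n ∧ ∀ f g h k : ℤ, f ^ 2 + g ^ 2 = 2 * n →
  h ^ 2 + k ^ 2 = 2 * n → Rc n f g h k

theorem q_step {n m : ℕ} (hm : 0 < m) {s t : ℤ} (hst : s ^ 2 + t ^ 2 = m)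
    (hS : ∃ S S' T T' : ℤ[X], Sp m S S' T T' ∧ S.eval 1 = s ∧ T.eval 1 = t)
    (hD : ∀ u v : ℤ, (m : ℤ) ∣ u ^ 2 + v ^ 2 → ∃ w : ℤ, (w = v ∨ w = -v) ∧
      (m : ℤ) ∣ u * s - w * t ∧ (m : ℤ) ∣ u * t + w * s)
    (H : Q n) : Q (n * m) := by
  obtain ⟨S, S', T, T', hSp, hs, ht⟩ := hS
  obtain ⟨hn, h0, hQ⟩ := H
  have hm' : (m : ℤ) ≠ 0 := by exact_mod_cast hm.ne'
  have hev : Even (n * m) := hn.mul_right m
  have key : ∀ u v : ℤ, u ^ 2 + v ^ 2 = 2 * ((n * m : ℕ) : ℤ) → ∃ w f g : ℤ, (w = v ∨ w = -v) ∧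
      f ^ 2 + g ^ 2 = 2 * n ∧ f * s + g * t = u ∧ g * s - f * t = w := by
    intro u v huv
    rw [Nat.cast_mul] at huv
    obtain ⟨w, hw, ⟨f, hf⟩, ⟨g, hg⟩⟩ := hD u v ⟨2 * n, by rw [huv]; ring⟩
    have hw2 : w ^ 2 = v ^ 2 := by
      rcases hw with rfl | rfl
      · rfl
      · ring
    refine ⟨w, f, g, hw, ?_, ?_, ?_⟩
    · have h1 : (m : ℤ) * m * (f ^ 2 + g ^ 2) = m * m * (2 * n) := by
        calc (m : ℤ) * m * (f ^ 2 + g ^ 2) = (m * f) ^ 2 + (m * g) ^ 2 := by ring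
          _ = (u * s - w * t) ^ 2 + (u * t + w * s) ^ 2 := by rw [hf, hg]
          _ = (u ^ 2 + w ^ 2) * (s ^ 2 + t ^ 2) := by ring
          _ = m * m * (2 * n) := by rw [hw2, huv, hst]; ring
      exact mul_left_cancel₀ (mul_ne_zero hm' hm') h1
    · have h1 : (m : ℤ) * (f * s + g * t) = m * u := by
        calc (m : ℤ) * (f * s + g * t) = (m * f) * s + (m * g) * t := by ring
          _ = (u * s - w * t) * s + (u * t + w * s) * t := by rw [hf, hg]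
          _ = (s ^ 2 + t ^ 2) * u := by ring
          _ = m * u := by rw [hst]
      exact mul_left_cancel₀ hm' h1
    · have h1 : (m : ℤ) * (g * s - f * t) = m * w := by
        calc (m : ℤ) * (g * s - f * t) = (m * g) * s - (m * f) * t := by ring
          _ = (u * t + w * s) * s - (u * s - w * t) * t := by rw [hf, hg]
          _ = (s ^ 2 + t ^ 2) * w := by ring
          _ = m * w := by rw [hst]
      exact mul_left_cancel₀ hm' h1
  refine ⟨hev, Nat.mul_pos h0 hm, fun u v u1 v1 h1 h2 => ?_⟩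
  obtain ⟨w, f, g, hw, e1, e2, e3⟩ := key u v h1
  obtain ⟨w1, h, k', hw1, e4, e5, e6⟩ := key u1 v1 h2
  -- the alternating sums: `h s - k t = u1`, `k s + h t = -w1` for `k = -k'`
  have hR := rc_mul hn h0 hm (hQ f g h (-k') e1 (by rw [neg_sq]; exact e4)) hSp hs ht
  rw [e2, e3, show h * s - -k' * t = u1 by rw [← e5]; ring,
    show -k' * s + h * t = -w1 by rw [← e6]; ring] at hR
  refine rc_sign hev (Nat.mul_pos h0 hm) hR (Or.inl rfl) ?_ (Or.inl rfl) ?_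
  · rcases hw with rfl | rfl
    · left
      rfl
    · right
      rw [neg_neg]
  · rcases hw1 with rfl | rfl
    · right
      rw [neg_neg]
    · left
      rw [neg_neg]

theorem q_mul2 {n : ℕ} (H : Q n) : Q (n * 2) := by
  refine q_step (by norm_num) (s := 1) (t := 1) (by norm_num) sp_2 (fun u v h => ⟨v, Or.inl rfl, ?_⟩) H
  have key : ∀ a b : ZMod 2, a ^ 2 + b ^ 2 = 0 → a * 1 - b * 1 = 0 ∧ a * 1 + b * 1 = 0 := by decide
  have h1 : ((u ^ 2 + v ^ 2 : ℤ) : ZMod 2) = 0 := (ZMod.intCast_zmod_eq_zero_iff_dvd _ 2).mpr h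
  push_cast at h1
  obtain ⟨h2, h3⟩ := key _ _ h1
  exact ⟨(ZMod.intCast_zmod_eq_zero_iff_dvd _ 2).mp (by push_cast; exact h2),
    (ZMod.intCast_zmod_eq_zero_iff_dvd _ 2).mp (by push_cast; exact h3)⟩

theorem q_mul10 {n : ℕ} (H : Q n) : Q (n * 10) := by
  refine q_step (by norm_num) (s := 3) (t := 1) (by norm_num) sp_10 (fun u v h => ?_) H
  have key : ∀ a b : ZMod 10, a ^ 2 + b ^ 2 = 0 → (a * 3 - b * 1 = 0 ∧ a * 1 + b * 3 = 0) ∨
    (a * 3 - -b * 1 = 0 ∧ a * 1 + -b * 3 = 0) := by decide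
  have h1 : ((u ^ 2 + v ^ 2 : ℤ) : ZMod 10) = 0 := (ZMod.intCast_zmod_eq_zero_iff_dvd _ 10).mpr h
  push_cast at h1
  rcases key _ _ h1 with ⟨h2, h3⟩ | ⟨h2, h3⟩
  · exact ⟨v, Or.inl rfl, (ZMod.intCast_zmod_eq_zero_iff_dvd _ 10).mp (by push_cast; exact h2),
      (ZMod.intCast_zmod_eq_zero_iff_dvd _ 10).mp (by push_cast; exact h3)⟩
  · exact ⟨-v, Or.inr rfl, (ZMod.intCast_zmod_eq_zero_iff_dvd _ 10).mp (by push_cast; exact h2),
      (ZMod.intCast_zmod_eq_zero_iff_dvd _ 10).mp (by push_cast; exact h3)⟩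

theorem q_mul26 {n : ℕ} (H : Q n) : Q (n * 26) := by
  refine q_step (by norm_num) (s := 5) (t := 1) (by norm_num) sp_26 (fun u v h => ?_) H
  have key : ∀ a b : ZMod 26, a ^ 2 + b ^ 2 = 0 → (a * 5 - b * 1 = 0 ∧ a * 1 + b * 5 = 0) ∨
    (a * 5 - -b * 1 = 0 ∧ a * 1 + -b * 5 = 0) := by decide
  have h1 : ((u ^ 2 + v ^ 2 : ℤ) : ZMod 26) = 0 := (ZMod.intCast_zmod_eq_zero_iff_dvd _ 26).mpr h
  push_cast at h1
  rcases key _ _ h1 with ⟨h2, h3⟩ | ⟨h2, h3⟩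
  · exact ⟨v, Or.inl rfl, (ZMod.intCast_zmod_eq_zero_iff_dvd _ 26).mp (by push_cast; exact h2),
      (ZMod.intCast_zmod_eq_zero_iff_dvd _ 26).mp (by push_cast; exact h3)⟩
  · exact ⟨-v, Or.inr rfl, (ZMod.intCast_zmod_eq_zero_iff_dvd _ 26).mp (by push_cast; exact h2),
      (ZMod.intCast_zmod_eq_zero_iff_dvd _ 26).mp (by push_cast; exact h3)⟩

theorem bound {f g : ℤ} {M : ℤ} {B : ℤ} (hB : 0 ≤ B) (hM : M < (B + 1) ^ 2) (h : f ^ 2 + g ^ 2 = M) :
    f ∈ Finset.Icc (-B) B ∧ g ∈ Finset.Icc (-B) B := by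
  rw [Finset.mem_Icc, Finset.mem_Icc]
  refine ⟨⟨?_, ?_⟩, ?_, ?_⟩ <;> by_contra hc <;> push Not at hc <;> nlinarith [sq_nonneg f, sq_nonneg g]

theorem q_4 : Q 4 := by
  have hR : Rc 4 2 2 2 (-2) := by
    have := rc_cat (n := 2) (by decide) (by norm_num) rc_two
    norm_num at this
    exact this
  have key : ∀ f ∈ Finset.Icc (-2 : ℤ) 2, ∀ g ∈ Finset.Icc (-2 : ℤ) 2, f ^ 2 + g ^ 2 = 8 →
    (f = 2 ∨ f = -2) ∧ (g = 2 ∨ g = -2) := by decide
  have key2 : ∀ f g : ℤ, f ^ 2 + g ^ 2 = 2 * ((4 : ℕ) : ℤ) → (f = 2 ∨ f = -2) ∧ (g = 2 ∨ g = -2) := by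
    intro f g h
    have h' : f ^ 2 + g ^ 2 = 8 := by
      rw [h]
      norm_num
    obtain ⟨a, b⟩ := bound (B := 2) (by norm_num) (by norm_num) h'
    exact key f a g b h'
  refine ⟨by decide, by norm_num, fun f g h k e1 e2 => ?_⟩
  obtain ⟨a1, a2⟩ := key2 f g e1
  obtain ⟨a3, a4⟩ := key2 h k e2
  exact rc_sign (by decide) (by norm_num) hR a1 a2 a3 (by rw [neg_neg]; exact a4.symm)

theorem q_base {n : ℕ} {x y : ℤ} (hev : Even n) (h0 : 0 < n)
    (key : ∀ f g : ℤ, f ^ 2 + g ^ 2 = 2 * (n : ℤ) → ((f = x ∨ f = -x) ∧ (g = y ∨ g = -y)) ∨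
      ((f = y ∨ f = -y) ∧ (g = x ∨ g = -x)))
    (h1 : Rc n x y x y) (h2 : Rc n x y y x) : Q n := by
  refine ⟨hev, h0, fun f g h k e1 e2 => ?_⟩
  rcases key f g e1 with ⟨a1, a2⟩ | ⟨a1, a2⟩ <;> rcases key h k e2 with ⟨a3, a4⟩ | ⟨a3, a4⟩
  · exact rc_sign hev h0 h1 a1 a2 a3 a4
  · exact rc_sign hev h0 h2 a1 a2 a3 a4
  · exact rc_sign hev h0 (rc_swap h2) a1 a2 a3 a4
  · exact rc_sign hev h0 (rc_swap h1) a1 a2 a3 a4

theorem q_20 : Q 20 := by
  have key : ∀ f ∈ Finset.Icc (-6 : ℤ) 6, ∀ g ∈ Finset.Icc (-6 : ℤ) 6, f ^ 2 + g ^ 2 = 40 →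
    ((f = 6 ∨ f = -6) ∧ (g = 2 ∨ g = -2)) ∨ ((f = 2 ∨ f = -2) ∧ (g = 6 ∨ g = -6)) := by decide
  have hR1 : Rc 20 6 2 6 2 := by
    have := rc_cat (n := 10) (by decide) (by norm_num) rc_ten
    norm_num at this
    exact rc_sign (by decide) (by norm_num) this (Or.inl rfl) (Or.inl rfl) (Or.inl rfl)
      (Or.inr (by norm_num))
  have hR2 : Rc 20 6 2 2 6 := by
    obtain ⟨S, S', T, T', hS, hs, ht⟩ := sp_2
    have := rc_mul (n := 10) (m := 2) (by decide) (by norm_num) (by norm_num) rc_ten hS hs ht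
    norm_num at this
    exact rc_sign (by decide) (by norm_num) this (Or.inl rfl) (Or.inr (by norm_num))
      (Or.inr (by norm_num)) (Or.inl rfl)
  refine q_base (by decide) (by norm_num) (fun f g h => ?_) hR1 hR2
  have h' : f ^ 2 + g ^ 2 = 40 := by
    rw [h]
    norm_num
  obtain ⟨a, b⟩ := bound (B := 6) (by norm_num) (by norm_num) h'
  exact key f a g b h'

theorem q_52 : Q 52 := by
  have key : ∀ f ∈ Finset.Icc (-10 : ℤ) 10, ∀ g ∈ Finset.Icc (-10 : ℤ) 10, f ^ 2 + g ^ 2 = 104 →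
    ((f = 10 ∨ f = -10) ∧ (g = 2 ∨ g = -2)) ∨ ((f = 2 ∨ f = -2) ∧ (g = 10 ∨ g = -10)) := by decide
  have hR1 : Rc 52 10 2 10 2 := by
    have := rc_cat (n := 26) (by decide) (by norm_num) rc_26
    norm_num at this
    exact rc_sign (by decide) (by norm_num) this (Or.inl rfl) (Or.inl rfl) (Or.inl rfl)
      (Or.inr (by norm_num))
  have hR2 : Rc 52 10 2 2 10 := by
    obtain ⟨S, S', T, T', hS, hs, ht⟩ := sp_2
    have := rc_mul (n := 26) (m := 2) (by decide) (by norm_num) (by norm_num) rc_26 hS hs ht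
    norm_num at this
    exact rc_sign (by decide) (by norm_num) this (Or.inl rfl) (Or.inr (by norm_num))
      (Or.inr (by norm_num)) (Or.inl rfl)
  refine q_base (by decide) (by norm_num) (fun f g h => ?_) hR1 hR2
  have h' : f ^ 2 + g ^ 2 = 104 := by
    rw [h]
    norm_num
  obtain ⟨a, b⟩ := bound (B := 10) (by norm_num) (by norm_num) h'
  exact key f a g b h'

theorem q_pow {n : ℕ} (H : Q n) (a b c : ℕ) : Q (n * 2 ^ a * 10 ^ b * 26 ^ c) := by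
  induction a with
  | zero =>
    induction b with
    | zero =>
      induction c with
      | zero => simpa using H
      | succ c ih =>
        have := q_mul26 ih
        rwa [mul_assoc, ← pow_succ] at this
    | succ b ih =>
      have := q_mul10 ih
      rw [show n * 2 ^ 0 * 10 ^ b * 26 ^ c * 10 = n * 2 ^ 0 * 10 ^ (b + 1) * 26 ^ c by ring] at this
      exact this
  | succ a ih =>
    have := q_mul2 ih
    rw [show n * 2 ^ a * 10 ^ b * 26 ^ c * 2 = n * 2 ^ (a + 1) * 10 ^ b * 26 ^ c by ring] at this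
    exact this

theorem q_all (a b c : ℕ) (h : 1 ≤ a + b + c) : Q (2 ^ (a + 1) * 10 ^ b * 26 ^ c) := by
  rcases Nat.eq_zero_or_pos a with ha | ha
  · rcases Nat.eq_zero_or_pos b with hb | hb
    · have hc : 0 < c := by omega
      obtain ⟨c', rfl⟩ : ∃ c', c = c' + 1 := ⟨c - 1, by omega⟩
      have := q_pow q_52 0 0 c'
      rw [ha, hb]
      rw [show 52 * 2 ^ 0 * 10 ^ 0 * 26 ^ c' = 2 ^ (0 + 1) * 10 ^ 0 * 26 ^ (c' + 1) by ring] at this
      exact this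
    · obtain ⟨b', rfl⟩ : ∃ b', b = b' + 1 := ⟨b - 1, by omega⟩
      have := q_pow q_20 0 b' c
      rw [ha]
      rw [show 20 * 2 ^ 0 * 10 ^ b' * 26 ^ c = 2 ^ (0 + 1) * 10 ^ (b' + 1) * 26 ^ c by ring] at this
      exact this
  · obtain ⟨a', rfl⟩ : ∃ a', a = a' + 1 := ⟨a - 1, by omega⟩
    have := q_pow q_4 a' b c
    rw [show 4 * 2 ^ a' * 10 ^ b * 26 ^ c = 2 ^ (a' + 1 + 1) * 10 ^ b * 26 ^ c by ring] at this
    exact this

end Pool.Agent.Bsg
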