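import Mathlib

/-!
Golay pairs as polynomials with coefficients `±1`: sums, alternating sums, symmetries, products
-/

set_option autoImplicit false

namespace Pool.Agent.Bsg

open Polynomial

/-- `F` is the polynomial of a sequence of `n` signs -/
def PM (n : ℕ) (F : ℤ[X]) : Prop :=
  (∀ i, i < n → F.coeff i = 1 ∨ F.coeff i = -1) ∧ ∀ i, n ≤ i → F.coeff i = 0

/-- `F'` is the reversal of the polynomial `F` of degree less than `n` -/
def Rv (n : ℕ) (F F' : ℤ[X]) : Prop :=
  (∀ i j, i + j + 1 = n → F'.coeff i = F.coeff j) ∧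
    (∀ i, n ≤ i → F.coeff i = 0) ∧ ∀ i, n ≤ i → F'.coeff i = 0

theorem rv_symm {n : ℕ} {F F' : ℤ[X]} (h : Rv n F F') : Rv n F' F :=
  ⟨fun i j hij => (h.1 j i (by omega)).symm, h.2.2, h.2.1⟩

theorem pm_rv {n : ℕ} {F F' : ℤ[X]} (h : Rv n F F') (hF : PM n F) : PM n F' := by
  refine ⟨fun i hi => ?_, h.2.2⟩
  rw [h.1 i (n - 1 - i) (by omega)]
  exact hF.1 _ (by omega)

theorem ev_sum {n : ℕ} {F : ℤ[X]} (h : ∀ i, n ≤ i → F.coeff i = 0) (x : ℤ) :
    F.eval x = ∑ i ∈ Finset.range n, F.coeff i * x ^ i := by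
  rw [Polynomial.eval_eq_sum_range]
  rcases Nat.lt_or_ge F.natDegree n with hd | hd
  · symm
    refine (Finset.sum_subset (Finset.range_subset_range.mpr hd) fun i _ hi => ?_).symm
    rw [Finset.mem_range, not_lt] at hi
    rw [Polynomial.coeff_eq_zero_of_natDegree_lt (by omega), zero_mul]
  · refine (Finset.sum_subset (Finset.range_subset_range.mpr (by omega)) fun i _ hi => ?_).symm
    rw [Finset.mem_range, not_lt] at hi
    rw [h i hi, zero_mul]

theorem rv_one {n : ℕ} {F F' : ℤ[X]} (h : Rv n F F') : F'.eval 1 = F.eval 1 := by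
  rw [ev_sum h.2.2, ev_sum h.2.1, ← Finset.sum_range_reflect]
  refine Finset.sum_congr rfl fun i hi => ?_
  rw [Finset.mem_range] at hi
  rw [h.1 (n - 1 - i) i (by omega), one_pow, one_pow]

theorem rv_neg {n : ℕ} {F F' : ℤ[X]} (h : Rv n F F') (hn : Even n) (h0 : 0 < n) :
    F'.eval (-1) = -F.eval (-1) := by
  rw [ev_sum h.2.2, ev_sum h.2.1, ← Finset.sum_range_reflect, ← Finset.sum_neg_distrib]
  refine Finset.sum_congr rfl fun i hi => ?_
  rw [Finset.mem_range] at hi
  rw [h.1 (n - 1 - i) i (by omega)]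
  obtain ⟨m, hm⟩ := hn
  rcases Nat.even_or_odd i with hi2 | hi2
  · have h2 : Odd (n - 1 - i) := by
      obtain ⟨k, hk⟩ := hi2
      exact ⟨m - 1 - k, by omega⟩
    rw [hi2.neg_one_pow, h2.neg_one_pow]
    ring
  · have h2 : Even (n - 1 - i) := by
      obtain ⟨k, hk⟩ := hi2
      exact ⟨m - 1 - k, by omega⟩
    rw [hi2.neg_one_pow, h2.neg_one_pow]
    ring

/-- Golay pair of length `n` with the reversals -/
def Gp (n : ℕ) (F F' G G' : ℤ[X]) : Prop :=
  PM n F ∧ PM n G ∧ Rv n F F' ∧ Rv n G G' ∧ F * F' + G * G' = C (2 * (n : ℤ)) * X ^ (n - 1)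

/-- there is a Golay pair of length `n` with the sums `f, g` and the alternating sums `h, k` -/
def Rc (n : ℕ) (f g h k : ℤ) : Prop := ∃ F F' G G' : ℤ[X], Gp n F F' G G' ∧
  F.eval 1 = f ∧ G.eval 1 = g ∧ F.eval (-1) = h ∧ G.eval (-1) = k

theorem pm_neg {n : ℕ} {F : ℤ[X]} (h : PM n F) : PM n (-F) := by
  refine ⟨fun i hi => ?_, fun i hi => by rw [coeff_neg, h.2 i hi, neg_zero]⟩
  rw [coeff_neg]
  rcases h.1 i hi with h1 | h1
  · right
    rw [h1]
  · left
    rw [h1, neg_neg]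

theorem rv_neg' {n : ℕ} {F F' : ℤ[X]} (h : Rv n F F') : Rv n (-F) (-F') := by
  refine ⟨fun i j hij => ?_, fun i hi => ?_, fun i hi => ?_⟩
  · rw [coeff_neg, coeff_neg, h.1 i j hij]
  · rw [coeff_neg, h.2.1 i hi, neg_zero]
  · rw [coeff_neg, h.2.2 i hi, neg_zero]

theorem rc_neg {n : ℕ} {f g h k : ℤ} (H : Rc n f g h k) : Rc n (-f) g (-h) k := by
  obtain ⟨F, F', G, G', ⟨hF, hG, rF, rG, e⟩, h1, h2, h3, h4⟩ := H
  refine ⟨-F, -F', G, G', ⟨pm_neg hF, hG, rv_neg' rF, rG, ?_⟩, ?_, h2, ?_, h4⟩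
  · rw [neg_mul_neg, e]
  · rw [eval_neg, h1]
  · rw [eval_neg, h3]

theorem rc_swap {n : ℕ} {f g h k : ℤ} (H : Rc n f g h k) : Rc n g f k h := by
  obtain ⟨F, F', G, G', ⟨hF, hG, rF, rG, e⟩, h1, h2, h3, h4⟩ := H
  exact ⟨G, G', F, F', ⟨hG, hF, rG, rF, by rw [add_comm, e]⟩, h2, h1, h4, h3⟩

theorem rc_rev {n : ℕ} (hn : Even n) (h0 : 0 < n) {f g h k : ℤ} (H : Rc n f g h k) :
    Rc n f g (-h) k := by
  obtain ⟨F, F', G, G', ⟨hF, hG, rF, rG, e⟩, h1, h2, h3, h4⟩ := H
  refine ⟨F', F, G, G', ⟨pm_rv rF hF, hG, rv_symm rF, rG, ?_⟩, ?_, h2, ?_, h4⟩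
  · rw [mul_comm F' F, e]
  · rw [rv_one rF, h1]
  · rw [rv_neg rF hn h0, h3]

/-- The four signs can be changed independently. -/
theorem rc_sign {n : ℕ} (hn : Even n) (h0 : 0 < n) {f g h k f' g' h' k' : ℤ} (H : Rc n f g h k)
    (hf : f' = f ∨ f' = -f) (hg : g' = g ∨ g' = -g) (hh : h' = h ∨ h' = -h)
    (hk : k' = k ∨ k' = -k) : Rc n f' g' h' k' := by
  have H1 : Rc n f' g h k := by
    rcases hf with rfl | rfl
    · exact H
    · have := rc_rev hn h0 (rc_neg H)
      rwa [neg_neg] at this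
  have H2 : Rc n f' g h' k := by
    rcases hh with rfl | rfl
    · exact H1
    · exact rc_rev hn h0 H1
  have H3 : Rc n f' g' h' k := by
    rcases hg with rfl | rfl
    · exact H2
    · have := rc_swap (rc_rev hn h0 (rc_neg (rc_swap H2)))
      rwa [neg_neg] at this
  rcases hk with rfl | rfl
  · exact H3
  · exact rc_swap (rc_rev hn h0 (rc_swap H3))

/-- the coefficients of a polynomial which is made of blocks of length `n` -/
theorem blk {n : ℕ} {F : ℤ[X]} (h : ∀ i, n ≤ i → F.coeff i = 0) (S : ℤ[X]) (t r : ℕ) (hr : r < n) :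
    (F * expand ℤ n S).coeff (n * t + r) = F.coeff r * S.coeff t := by
  have hn : 0 < n := by omega
  induction S using Polynomial.induction_on' with
  | add p q hp hq => rw [map_add, mul_add, coeff_add, hp, hq, coeff_add, mul_add]
  | monomial k s =>
    rw [expand_monomial, ← C_mul_X_pow_eq_monomial, ← mul_assoc, coeff_mul_X_pow', coeff_mul_C,
      coeff_monomial]
    rcases lt_trichotomy t k with hlt | rfl | hgt
    · have h1 : n * t + n ≤ n * k := by
        calc n * t + n = n * (t + 1) := by ring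
          _ ≤ n * k := Nat.mul_le_mul_left n hlt
      have h1' : k * n = n * k := mul_comm k n
      rw [if_neg (by omega), if_neg (by omega), mul_zero]
    · have h1' : t * n = n * t := mul_comm t n
      rw [if_pos (by omega), if_pos rfl]
      congr 2
      omega
    · have h1 : n * k + n ≤ n * t := by
        calc n * k + n = n * (k + 1) := by ring
          _ ≤ n * t := Nat.mul_le_mul_left n hgt
      have h1' : k * n = n * k := mul_comm k n
      rw [if_pos (by omega), if_neg (by omega), h _ (by omega)]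
      ring

end Pool.Agent.Bsg
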