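import Pool.Agent.Bsg.Prod

/-!
The fixed pairs of length 2, 10 and 26
-/

set_option autoImplicit false

namespace Pool.Agent.Bsg

open Polynomial

/-- the polynomial with the given list of coefficients -/
noncomputable def ofL : List ℤ → ℤ[X]
  | [] => 0
  | a :: L => C a + X * ofL L

theorem ofL_coeff (L : List ℤ) : ∀ i, (ofL L).coeff i = L.getD i 0 := by
  induction L with
  | nil =>
    intro i
    simp [ofL]
  | cons a L ih =>
    intro i
    cases i with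
    | zero => simp [ofL]
    | succ i =>
      rw [ofL, coeff_add, coeff_X_mul, ih, coeff_C, if_neg (Nat.succ_ne_zero i), zero_add]
      simp

theorem ofL_eval (L : List ℤ) (x : ℤ) : (ofL L).eval x = L.foldr (fun a y => a + x * y) 0 := by
  induction L with
  | nil => simp [ofL]
  | cons a L ih => simp [ofL, ih]

theorem ofL_zero {L : List ℤ} {n : ℕ} (hL : L.length = n) (i : ℕ) (hi : n ≤ i) :
    (ofL L).coeff i = 0 := by
  rw [ofL_coeff, List.getD_eq_default _ _ (by omega)]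

theorem ofL_rv {L L' : List ℤ} {n : ℕ} (hL : L.length = n) (hL' : L'.length = n)
    (h : ∀ i, i < n → L'.getD i 0 = L.getD (n - 1 - i) 0) : Rv n (ofL L) (ofL L') := by
  refine ⟨fun i j hij => ?_, ofL_zero hL, ofL_zero hL'⟩
  rw [ofL_coeff, ofL_coeff, h i (by omega), show n - 1 - i = j by omega]

theorem ofL_pm {L : List ℤ} {n : ℕ} (hL : L.length = n)
    (h : ∀ i, i < n → L.getD i 0 = 1 ∨ L.getD i 0 = -1) : PM n (ofL L) :=
  ⟨fun i hi => by rw [ofL_coeff]; exact h i hi, ofL_zero hL⟩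

/-- coefficients of the fixed pair of length 10 -/
def h10 : List ℤ := [1, 1, 1, 1, 1, -1, 1, -1, -1, 1]
/-- coefficients of the fixed pair of length 10 -/
def k10 : List ℤ := [1, 1, -1, -1, 1, 1, 1, -1, 1, -1]
/-- half sum -/
def s10 : List ℤ := [1, 1, 0, 0, 1, 0, 1, -1, 0, 0]
/-- half difference -/
def t10 : List ℤ := [0, 0, 1, 1, 0, -1, 0, 0, -1, 1]
/-- coefficients of the fixed pair of length 26 -/
def h26 : List ℤ := [1, 1, 1, -1, -1, 1, 1, 1, -1, 1, -1, -1, 1, -1, 1, -1, 1, -1, -1, 1, 1, -1, 1, 1, 1, 1]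
/-- coefficients of the fixed pair of length 26 -/
def k26 : List ℤ := [-1, -1, -1, 1, 1, -1, -1, -1, 1, -1, 1, 1, 1, 1, 1, -1, 1, -1, -1, 1, 1, -1, 1, 1, 1, 1]
/-- half sum -/
def s26 : List ℤ := [0, 0, 0, 0, 0, 0, 0, 0, 0, 0, 0, 0, 1, 0, 1, -1, 1, -1, -1, 1, 1, -1, 1, 1, 1, 1]
/-- half difference -/
def t26 : List ℤ := [1, 1, 1, -1, -1, 1, 1, 1, -1, 1, -1, -1, 0, -1, 0, 0, 0, 0, 0, 0, 0, 0, 0, 0, 0, 0]

theorem rc_two : Rc 2 2 0 0 2 := by
  refine ⟨ofL [1, 1], ofL [1, 1], ofL [1, -1], ofL [-1, 1],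
    ⟨ofL_pm rfl (by decide), ofL_pm rfl (by decide), ofL_rv rfl rfl (by decide),
      ofL_rv rfl rfl (by decide), ?_⟩, ?_, ?_, ?_, ?_⟩
  · simp [ofL]
    ring
  all_goals simp [ofL_eval]

theorem rc_ten : Rc 10 4 2 2 4 := by
  refine ⟨ofL h10, ofL h10.reverse, ofL k10, ofL k10.reverse,
    ⟨ofL_pm rfl (by decide), ofL_pm rfl (by decide), ofL_rv rfl rfl (by decide),
      ofL_rv rfl rfl (by decide), ?_⟩, ?_, ?_, ?_, ?_⟩
  · simp [ofL, h10, k10]
    ring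
  all_goals simp [ofL_eval, h10, k10]

theorem rc_26 : Rc 26 6 4 4 6 := by
  refine ⟨ofL h26, ofL h26.reverse, ofL k26, ofL k26.reverse,
    ⟨ofL_pm rfl (by decide), ofL_pm rfl (by decide), ofL_rv rfl rfl (by decide),
      ofL_rv rfl rfl (by decide), ?_⟩, ?_, ?_, ?_, ?_⟩
  · simp [ofL, h26, k26]
    ring
  all_goals simp [ofL_eval, h26, k26]

theorem sp_2 : ∃ S S' T T' : ℤ[X], Sp 2 S S' T T' ∧ S.eval 1 = 1 ∧ T.eval 1 = 1 := by
  refine ⟨ofL [1, 0], ofL [0, 1], ofL [0, 1], ofL [1, 0], ⟨ofL_rv rfl rfl (by decide),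
    ofL_rv rfl rfl (by decide), fun t ht => ?_, ?_⟩, ?_, ?_⟩
  · rw [ofL_coeff, ofL_coeff]
    revert t
    decide
  · simp [ofL]
    ring
  all_goals simp [ofL_eval]

theorem sp_10 : ∃ S S' T T' : ℤ[X], Sp 10 S S' T T' ∧ S.eval 1 = 3 ∧ T.eval 1 = 1 := by
  refine ⟨ofL s10, ofL s10.reverse, ofL t10, ofL t10.reverse, ⟨ofL_rv rfl rfl (by decide),
    ofL_rv rfl rfl (by decide), fun t ht => ?_, ?_⟩, ?_, ?_⟩
  · rw [ofL_coeff, ofL_coeff]
    revert t
    decide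
  · simp [ofL, s10, t10]
    ring
  all_goals simp [ofL_eval, s10, t10]

theorem sp_26 : ∃ S S' T T' : ℤ[X], Sp 26 S S' T T' ∧ S.eval 1 = 5 ∧ T.eval 1 = 1 := by
  refine ⟨ofL s26, ofL s26.reverse, ofL t26, ofL t26.reverse, ⟨ofL_rv rfl rfl (by decide),
    ofL_rv rfl rfl (by decide), fun t ht => ?_, ?_⟩, ?_, ?_⟩
  · rw [ofL_coeff, ofL_coeff]
    revert t
    decide
  · simp [ofL, s26, t26]
    ring
  all_goals simp [ofL_eval, s26, t26]

end Pool.Agent.Bsg
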