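import Pool.Agent.Bsg.All

/-!
Base sequences from Golay pairs; many classes
-/

set_option autoImplicit false

namespace Pool.Agent.Bsg

open Polynomial

theorem nac_coeff {m : ℕ} {P P' : ℤ[X]} (h : Rv m P P') (hm : 0 < m) (j : ℕ) :
    ∑ i ∈ Finset.range m, P.coeff i * P.coeff (i + j) = (P * P').coeff (m - 1 + j) := by
  rw [coeff_mul, Finset.Nat.sum_antidiagonal_eq_sum_range_succ (fun i k => P.coeff i * P'.coeff k),
    show (m - 1 + j).succ = j + m by omega, Finset.sum_range_add]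
  have h1 : ∑ x ∈ Finset.range j, P.coeff x * P'.coeff (m - 1 + j - x) = 0 := by
    refine Finset.sum_eq_zero fun x hx => ?_
    rw [Finset.mem_range] at hx
    rw [h.2.2 _ (by omega), mul_zero]
  rw [h1, zero_add]
  refine Finset.sum_congr rfl fun i hi => ?_
  rw [Finset.mem_range] at hi
  rw [h.1 (m - 1 + j - (j + i)) i (by omega), mul_comm, add_comm i j]

theorem rv_app {n : ℕ} {F F' : ℤ[X]} (h : Rv n F F') (b : ℤ) :
    Rv (n + 1) (F + C b * X ^ n) (X * F' + C b) := by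
  refine ⟨fun i j hij => ?_, fun i hi => ?_, fun i hi => ?_⟩
  · rw [coeff_add, coeff_add, coeff_C_mul, coeff_X_pow, coeff_C]
    rcases i with _ | i
    · have hj : j = n := by omega
      rw [hj, h.2.1 n le_rfl, if_pos rfl, if_pos rfl, mul_coeff_zero, coeff_X_zero]
      ring
    · rw [coeff_X_mul, h.1 i j (by omega), if_neg (Nat.succ_ne_zero i), if_neg (by omega)]
      ring
  · rw [coeff_add, coeff_C_mul, coeff_X_pow, h.2.1 i (by omega), if_neg (by omega)]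
    ring
  · obtain ⟨i', rfl⟩ : ∃ i', i = i' + 1 := ⟨i - 1, by omega⟩
    rw [coeff_add, coeff_X_mul, coeff_C, h.2.2 i' (by omega), if_neg (Nat.succ_ne_zero i')]
    ring

theorem pm_app {n : ℕ} {F : ℤ[X]} (h : PM n F) {b : ℤ} (hb : b = 1 ∨ b = -1) :
    PM (n + 1) (F + C b * X ^ n) := by
  refine ⟨fun i hi => ?_, fun i hi => ?_⟩
  · rw [coeff_add, coeff_C_mul, coeff_X_pow]
    rcases Nat.lt_or_ge i n with hi2 | hi2
    · rw [if_neg (by omega), mul_zero, add_zero]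
      exact h.1 i hi2
    · rw [if_pos (by omega), mul_one, h.2 i hi2, zero_add]
      exact hb
  · rw [coeff_add, coeff_C_mul, coeff_X_pow, h.2 i (by omega), if_neg (by omega)]
    ring

theorem base_of {n : ℕ} (hn : Even n) (h0 : 0 < n) {f g h k : ℤ} (H : Rc n f g h k) :
    ∃ A B C D : ℕ → ℤ, ((∀ i, i < n + 1 → A i = 1 ∨ A i = -1) ∧ ∀ i, n + 1 ≤ i → A i = 0) ∧
      ((∀ i, i < n + 1 → B i = 1 ∨ B i = -1) ∧ ∀ i, n + 1 ≤ i → B i = 0) ∧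
      ((∀ i, i < n → C i = 1 ∨ C i = -1) ∧ ∀ i, n ≤ i → C i = 0) ∧
      ((∀ i, i < n → D i = 1 ∨ D i = -1) ∧ ∀ i, n ≤ i → D i = 0) ∧
      (∀ j, 1 ≤ j → ∑ i ∈ Finset.range (n + 1), A i * A (i + j) +
        ∑ i ∈ Finset.range (n + 1), B i * B (i + j) + ∑ i ∈ Finset.range n, C i * C (i + j) +
        ∑ i ∈ Finset.range n, D i * D (i + j) = 0) ∧
      (∑ i ∈ Finset.range (n + 1), A i = f + 1 ∧ ∑ i ∈ Finset.range (n + 1), B i = f - 1 ∧
        ∑ i ∈ Finset.range n, C i = g ∧ ∑ i ∈ Finset.range n, D i = g) ∧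
      (∑ i ∈ Finset.range (n + 1), (-1) ^ i * A i = h + 1 ∧
        ∑ i ∈ Finset.range (n + 1), (-1) ^ i * B i = h - 1 ∧
        ∑ i ∈ Finset.range n, (-1) ^ i * C i = k ∧ ∑ i ∈ Finset.range n, (-1) ^ i * D i = k) := by
  obtain ⟨F, F', G, G', ⟨hF, hG, rF, rG, e⟩, h1, h2, h3, h4⟩ := H
  have s1 : ∀ {m : ℕ} {P : ℤ[X]}, PM m P → ∑ i ∈ Finset.range m, P.coeff i = P.eval 1 := by
    intro m P hP
    rw [ev_sum hP.2]
    exact Finset.sum_congr rfl fun i _ => by rw [one_pow, mul_one]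
  have s2 : ∀ {m : ℕ} {P : ℤ[X]}, PM m P →
      ∑ i ∈ Finset.range m, (-1) ^ i * P.coeff i = P.eval (-1) := by
    intro m P hP
    rw [ev_sum hP.2]
    exact Finset.sum_congr rfl fun i _ => mul_comm _ _
  have hA := pm_app hF (b := 1) (Or.inl rfl)
  have hB := pm_app hF (b := -1) (Or.inr rfl)
  refine ⟨fun i => (F + C 1 * X ^ n).coeff i, fun i => (F + C (-1) * X ^ n).coeff i,
    fun i => G.coeff i, fun i => G.coeff i, ⟨hA.1, hA.2⟩, ⟨hB.1, hB.2⟩, ⟨hG.1, hG.2⟩,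
    ⟨hG.1, hG.2⟩, fun j hj => ?_, ⟨?_, ?_, ?_, ?_⟩, ?_, ?_, ?_, ?_⟩ <;> beta_reduce
  · rw [nac_coeff (rv_app rF 1) (Nat.succ_pos n), nac_coeff (rv_app rF (-1)) (Nat.succ_pos n),
      nac_coeff rG h0, show n + 1 - 1 + j = (n - 1 + j) + 1 by omega, ← coeff_X_mul (G * G'),
      ← coeff_add, ← coeff_add, ← coeff_add]
    have e1 : (F + C 1 * X ^ n) * (X * F' + C 1) + (F + C (-1) * X ^ n) * (X * F' + C (-1)) +
        X * (G * G') + X * (G * G') = 2 * X * (F * F' + G * G') + 2 * X ^ n := by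
      rw [C_neg, C_1]
      ring
    have e2 : 2 * X * (F * F' + G * G') + 2 * X ^ n = C (4 * (n : ℤ) + 2) * X ^ n := by
      obtain ⟨n', rfl⟩ : ∃ n', n = n' + 1 := ⟨n - 1, by omega⟩
      rw [e, C_add, show (4 : ℤ) * ((n' + 1 : ℕ) : ℤ) = 2 * (2 * ((n' + 1 : ℕ) : ℤ)) by ring,
        C_mul (a := 2) (b := 2 * ((n' + 1 : ℕ) : ℤ)), show (C (2 : ℤ) : ℤ[X]) = 2 from rfl,
        Nat.add_sub_cancel]
      ring
    rw [e1, e2, coeff_C_mul, coeff_X_pow, if_neg (by omega), mul_zero]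
  · rw [s1 hA]
    simp [h1]
  · rw [s1 hB]
    simp [h1]
    ring
  · rw [s1 hG, h2]
  · rw [s1 hG, h2]
  · rw [s2 hA]
    simp [h3, hn.neg_one_pow]
  · rw [s2 hB]
    simp [h3, hn.neg_one_pow]
    ring
  · rw [s2 hG, h4]
  · rw [s2 hG, h4]

/-- the powers of `2 + i` -/
def pw : ℕ → ℤ × ℤ
  | 0 => (1, 0)
  | m + 1 => (2 * (pw m).1 - (pw m).2, (pw m).1 + 2 * (pw m).2)

theorem pw_norm (m : ℕ) : (pw m).1 ^ 2 + (pw m).2 ^ 2 = 5 ^ m := by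
  induction m with
  | zero => norm_num [pw]
  | succ m ih =>
    rw [pow_succ (5 : ℤ) m, ← ih, pw]
    ring

theorem pw_mod (m : ℕ) : ((pw m).1 % 5 = 1 ∧ (pw m).2 % 5 = 0) ∨
    ((pw m).1 % 5 = 2 ∧ (pw m).2 % 5 = 1) ∨ ((pw m).1 % 5 = 3 ∧ (pw m).2 % 5 = 4) := by
  induction m with
  | zero => norm_num [pw]
  | succ m ih =>
    rw [pw]
    dsimp only
    omega

/-- the representations of `2 n`, `n = 2 · 100^M` -/
def cf (M j : ℕ) : ℤ := 2 ^ (M + 1) * 5 ^ j * (pw (2 * (M - j))).1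

/-- the second component -/
def cg (M j : ℕ) : ℤ := 2 ^ (M + 1) * 5 ^ j * (pw (2 * (M - j))).2

theorem c_norm {M j : ℕ} (hj : j ≤ M) :
    cf M j ^ 2 + cg M j ^ 2 = 2 * ((2 * 100 ^ M : ℕ) : ℤ) := by
  have h1 : cf M j ^ 2 + cg M j ^ 2 = (2 ^ (M + 1) * 5 ^ j) ^ 2 *
      ((pw (2 * (M - j))).1 ^ 2 + (pw (2 * (M - j))).2 ^ 2) := by
    rw [cf, cg]
    ring
  rw [h1, pw_norm]
  obtain ⟨d, rfl⟩ : ∃ d, M = j + d := ⟨M - j, by omega⟩
  rw [Nat.add_sub_cancel_left]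
  push_cast
  have e100 : (100 : ℤ) ^ (j + d) = (2 ^ (j + d)) ^ 2 * (5 ^ (j + d)) ^ 2 := by
    rw [← pow_mul, ← pow_mul, mul_comm (j + d) 2, pow_mul, pow_mul, ← mul_pow]
    norm_num
  rw [e100]
  ring

theorem c_even (M j : ℕ) : cf M j % 2 = 0 ∧ cg M j % 2 = 0 := by
  rw [cf, cg, pow_succ]
  constructor
  · rw [show (2 : ℤ) ^ M * 2 * 5 ^ j * (pw (2 * (M - j))).1 =
      2 * (2 ^ M * 5 ^ j * (pw (2 * (M - j))).1) by ring]
    omega
  · rw [show (2 : ℤ) ^ M * 2 * 5 ^ j * (pw (2 * (M - j))).2 =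
      2 * (2 ^ M * 5 ^ j * (pw (2 * (M - j))).2) by ring]
    omega

theorem c_inj_aux {M i j : ℕ} (hij : i < j) : cf M i ^ 2 ≠ cf M j ^ 2 := by
  intro h
  -- divide by `(2^(M+1) 5^i)^2`
  obtain ⟨d, rfl⟩ : ∃ d, j = i + (d + 1) := ⟨j - i - 1, by omega⟩
  have h1 : ((2 : ℤ) ^ (M + 1) * 5 ^ i) ^ 2 * (pw (2 * (M - i))).1 ^ 2 =
      (2 ^ (M + 1) * 5 ^ i) ^ 2 * (5 ^ (d + 1) * (pw (2 * (M - (i + (d + 1))))).1) ^ 2 := by
    calc ((2 : ℤ) ^ (M + 1) * 5 ^ i) ^ 2 * (pw (2 * (M - i))).1 ^ 2 = cf M i ^ 2 := by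
          rw [cf]
          ring
      _ = cf M (i + (d + 1)) ^ 2 := h
      _ = (2 ^ (M + 1) * 5 ^ i) ^ 2 * (5 ^ (d + 1) * (pw (2 * (M - (i + (d + 1))))).1) ^ 2 := by
          rw [cf]
          ring
  have h2 := mul_left_cancel₀ (by positivity) h1
  have h3 : (5 : ℤ) ∣ (pw (2 * (M - i))).1 ^ 2 := by
    rw [h2, pow_succ]
    exact ⟨(5 ^ d * (pw (2 * (M - (i + (d + 1))))).1) ^ 2 * 5, by ring⟩
  have h4 : (5 : ℤ) ∣ (pw (2 * (M - i))).1 := Int.Prime.dvd_pow' (by norm_num) h3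
  have h5 := pw_mod (2 * (M - i))
  omega

theorem c_inj {M i j : ℕ} (h : cf M i ^ 2 = cf M j ^ 2) : i = j := by
  rcases lt_trichotomy i j with h1 | h1 | h1
  · exact absurd h (c_inj_aux h1)
  · exact h1
  · exact absurd h.symm (c_inj_aux h1)

end Pool.Agent.Bsg
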