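import Pool.Agent.Bsg.Basic

/-!
Concatenation of a Golay pair and the product of a Golay pair with a fixed pair
-/

set_option autoImplicit false

namespace Pool.Agent.Bsg

open Polynomial

/-- a fixed pair of length `m`: `S`, `T` have coefficients `0, ±1` and disjoint supports which cover
`0, .., m - 1` -/
def Sp (m : ℕ) (S S' T T' : ℤ[X]) : Prop := Rv m S S' ∧ Rv m T T' ∧
  (∀ t, t < m → ((S.coeff t = 1 ∨ S.coeff t = -1) ∧ T.coeff t = 0) ∨
    (S.coeff t = 0 ∧ (T.coeff t = 1 ∨ T.coeff t = -1))) ∧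
  S * S' + T * T' = C (m : ℤ) * X ^ (m - 1)

theorem div_lt {n m i : ℕ} (hi : i < n * m) (hn : 0 < n) : i / n < m ∧ i % n < n ∧ n * (i / n) + i % n = i :=
  ⟨Nat.div_lt_of_lt_mul hi, Nat.mod_lt _ hn, Nat.div_add_mod i n⟩

theorem blk2 {n : ℕ} {F G : ℤ[X]} (hF : ∀ i, n ≤ i → F.coeff i = 0) (hG : ∀ i, n ≤ i → G.coeff i = 0)
    (S T : ℤ[X]) (t r : ℕ) (hr : r < n) :
    (F * expand ℤ n S + G * expand ℤ n T).coeff (n * t + r) =
      F.coeff r * S.coeff t + G.coeff r * T.coeff t := by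
  rw [coeff_add, blk hF S t r hr, blk hG T t r hr]

theorem blk_zero {n m : ℕ} (hn : 0 < n) {F G S T : ℤ[X]} (hF : ∀ i, n ≤ i → F.coeff i = 0)
    (hG : ∀ i, n ≤ i → G.coeff i = 0) (hS : ∀ i, m ≤ i → S.coeff i = 0)
    (hT : ∀ i, m ≤ i → T.coeff i = 0) (i : ℕ) (hi : n * m ≤ i) :
    (F * expand ℤ n S + G * expand ℤ n T).coeff i = 0 := by
  have h1 := Nat.div_add_mod i n
  have h2 : m ≤ i / n := (Nat.le_div_iff_mul_le hn).mpr (by rw [mul_comm]; exact hi)
  rw [← h1, blk2 hF hG S T _ _ (Nat.mod_lt _ hn), hS _ h2, hT _ h2]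
  ring

theorem blk_pm {n m : ℕ} (hn : 0 < n) {F G S T : ℤ[X]} (hF : PM n F) (hG : PM n G)
    (hS : ∀ i, m ≤ i → S.coeff i = 0) (hT : ∀ i, m ≤ i → T.coeff i = 0)
    (h : ∀ t, t < m → ((S.coeff t = 1 ∨ S.coeff t = -1) ∧ T.coeff t = 0) ∨
      (S.coeff t = 0 ∧ (T.coeff t = 1 ∨ T.coeff t = -1))) :
    PM (n * m) (F * expand ℤ n S + G * expand ℤ n T) := by
  refine ⟨fun i hi => ?_, fun i hi => blk_zero hn hF.2 hG.2 hS hT i hi⟩
  obtain ⟨h1, h2, h3⟩ := div_lt hi hn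
  rw [← h3, blk2 hF.2 hG.2 S T _ _ h2]
  rcases h _ h1 with ⟨hs, ht⟩ | ⟨hs, ht⟩
  · rw [ht, mul_zero, add_zero]
    rcases hs with hs | hs <;> rcases hF.1 _ h2 with hf | hf <;> rw [hs, hf] <;> simp
  · rw [hs, mul_zero, zero_add]
    rcases ht with ht | ht <;> rcases hG.1 _ h2 with hf | hf <;> rw [ht, hf] <;> simp

theorem blk_rv {n m : ℕ} (hn : 0 < n) {F F' G G' S S' T T' : ℤ[X]} (hF : Rv n F F') (hG : Rv n G G')
    (hS : Rv m S S') (hT : Rv m T T') :
    Rv (n * m) (F * expand ℤ n S + G * expand ℤ n T) (F' * expand ℤ n S' + G' * expand ℤ n T') := by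
  refine ⟨fun i j hij => ?_, fun i hi => blk_zero hn hF.2.1 hG.2.1 hS.2.1 hT.2.1 i hi,
    fun i hi => blk_zero hn hF.2.2 hG.2.2 hS.2.2 hT.2.2 i hi⟩
  obtain ⟨h1, h2, h3⟩ := div_lt (show i < n * m by omega) hn
  obtain ⟨k1, k2, k3⟩ := div_lt (show j < n * m by omega) hn
  have e : i % n + j % n + 1 = n ∧ i / n + j / n + 1 = m := by
    have e1 : n * (i / n + j / n) + (i % n + j % n + 1) = n * m := by
      rw [mul_add]
      omega
    have e2 : i / n + j / n + 1 = m := by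
      rcases lt_trichotomy (i / n + j / n + 1) m with hlt | heq | hgt
      · exfalso
        have : n * (i / n + j / n + 1 + 1) ≤ n * m := Nat.mul_le_mul_left n hlt
        rw [mul_add, mul_add, mul_one] at this
        rw [← e1] at this
        have h5 : n * (i / n + j / n) = n * (i / n) + n * (j / n) := by ring
        omega
      · exact heq
      · exfalso
        have : n * (m + 1) ≤ n * (i / n + j / n + 1) := Nat.mul_le_mul_left n hgt
        rw [mul_add, mul_add, mul_one] at this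
        omega
    have e3 : n * m = n * (i / n + j / n) + n := by
      rw [← e2]
      ring
    exact ⟨by linarith, e2⟩
  rw [← h3, ← k3, blk2 hF.2.2 hG.2.2 S' T' _ _ h2, blk2 hF.2.1 hG.2.1 S T _ _ k2,
    hF.1 _ _ e.1, hG.1 _ _ e.1, hS.1 _ _ e.2, hT.1 _ _ e.2]

theorem ev_one (n : ℕ) (S : ℤ[X]) : (expand ℤ n S).eval 1 = S.eval 1 := by
  rw [expand_eval, one_pow]

theorem ev_neg {n : ℕ} (hn : Even n) (S : ℤ[X]) : (expand ℤ n S).eval (-1) = S.eval 1 := by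
  rw [expand_eval, hn.neg_one_pow]

theorem rv_neg_right {n : ℕ} {F F' : ℤ[X]} (h : Rv n F F') : Rv n (-F) (-F') := rv_neg' h

/-- The product: the sums are multiplied by `s - i t`, the alternating sums by `s + i t`. -/
theorem rc_mul {n m : ℕ} (hn : Even n) (h0 : 0 < n) (hm : 0 < m) {f g h k : ℤ} (H : Rc n f g h k)
    {S S' T T' : ℤ[X]} (hS : Sp m S S' T T') {s t : ℤ} (hs : S.eval 1 = s) (ht : T.eval 1 = t) :
    Rc (n * m) (f * s + g * t) (g * s - f * t) (h * s - k * t) (k * s + h * t) := by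
  obtain ⟨F, F', G, G', ⟨hF, hG, rF, rG, e⟩, h1, h2, h3, h4⟩ := H
  obtain ⟨rS, rT, hST, eS⟩ := hS
  have hST' : ∀ t, t < m → (((S.coeff t = 1 ∨ S.coeff t = -1) ∧ (-T).coeff t = 0) ∨
    (S.coeff t = 0 ∧ ((-T).coeff t = 1 ∨ (-T).coeff t = -1))) := by
    intro t ht
    rw [coeff_neg]
    rcases hST t ht with ⟨a, b⟩ | ⟨a, b⟩
    · left
      exact ⟨a, by rw [b, neg_zero]⟩
    · right
      refine ⟨a, ?_⟩
      rcases b with b | b
      · right
        rw [b]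
      · left
        rw [b, neg_neg]
  refine ⟨F * expand ℤ n S + G' * expand ℤ n T, F' * expand ℤ n S' + G * expand ℤ n T',
    G * expand ℤ n S + F' * expand ℤ n (-T), G' * expand ℤ n S' + F * expand ℤ n (-T'),
    ⟨blk_pm h0 hF (pm_rv rG hG) rS.2.1 rT.2.1 hST,
      blk_pm h0 hG (pm_rv rF hF) rS.2.1 (rv_neg' rT).2.1 hST',
      blk_rv h0 rF (rv_symm rG) rS rT, blk_rv h0 rG (rv_symm rF) rS (rv_neg' rT), ?_⟩, ?_, ?_, ?_, ?_⟩
  · have e1 : expand ℤ n S * expand ℤ n S' + expand ℤ n T * expand ℤ n T' =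
        C (m : ℤ) * X ^ (n * (m - 1)) := by
      rw [← map_mul, ← map_mul, ← map_add, eS, map_mul, expand_C, map_pow, expand_X, ← pow_mul]
    have e2 : (F * expand ℤ n S + G' * expand ℤ n T) * (F' * expand ℤ n S' + G * expand ℤ n T') +
        (G * expand ℤ n S + F' * expand ℤ n (-T)) * (G' * expand ℤ n S' + F * expand ℤ n (-T')) =
        (F * F' + G * G') * (expand ℤ n S * expand ℤ n S' + expand ℤ n T * expand ℤ n T') := by
      rw [map_neg, map_neg]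
      ring
    rw [e2, e, e1]
    have e3 : n * m - 1 = (n - 1) + n * (m - 1) := by
      obtain ⟨m', rfl⟩ : ∃ m', m = m' + 1 := ⟨m - 1, by omega⟩
      rw [Nat.add_sub_cancel, mul_add, mul_one]
      omega
    rw [e3, pow_add, Nat.cast_mul]
    simp only [C_mul]
    ring
  · rw [eval_add, eval_mul, eval_mul, ev_one, ev_one, rv_one rG, h1, h2, hs, ht]
  · rw [eval_add, eval_mul, eval_mul, ev_one, ev_one, eval_neg, rv_one rF, h1, h2, hs, ht]
    ring
  · rw [eval_add, eval_mul, eval_mul, ev_neg hn, ev_neg hn, rv_neg rG hn h0, h3, h4, hs, ht]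
    ring
  · rw [eval_add, eval_mul, eval_mul, ev_neg hn, ev_neg hn, eval_neg, rv_neg rF hn h0, h3, h4, hs, ht]
    ring

theorem sp_two : Rv 2 (1 : ℤ[X]) X ∧ Rv 2 (X : ℤ[X]) 1 := by
  have h1 : Rv 2 (1 : ℤ[X]) X := by
    refine ⟨fun i j hij => ?_, fun i hi => ?_, fun i hi => ?_⟩
    · rw [coeff_X, coeff_one]
      have : (1 = i) ↔ (j = 0) := by omega
      simp only [this]
    · rw [coeff_one, if_neg (by omega)]
    · rw [coeff_X, if_neg (by omega)]
  exact ⟨h1, rv_symm h1⟩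

/-- Concatenation `F|G`, `F|-G`. -/
theorem rc_cat {n : ℕ} (hn : Even n) (h0 : 0 < n) {f g h k : ℤ} (H : Rc n f g h k) :
    Rc (n * 2) (f + g) (f - g) (h + k) (h - k) := by
  obtain ⟨F, F', G, G', ⟨hF, hG, rF, rG, e⟩, h1, h2, h3, h4⟩ := H
  have c1 : ∀ i, 2 ≤ i → (1 : ℤ[X]).coeff i = 0 := sp_two.1.2.1
  have c2 : ∀ i, 2 ≤ i → (X : ℤ[X]).coeff i = 0 := sp_two.1.2.2
  have hc : ∀ (a : ℤ[X]) (b : ℤ), (b = 1 ∨ b = -1) → a = C b * X → ∀ t, t < 2 →
      (((1 : ℤ[X]).coeff t = 1 ∨ (1 : ℤ[X]).coeff t = -1) ∧ a.coeff t = 0) ∨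
      ((1 : ℤ[X]).coeff t = 0 ∧ (a.coeff t = 1 ∨ a.coeff t = -1)) := by
    intro a b hb ha t ht
    rw [ha, coeff_C_mul, coeff_X, coeff_one]
    interval_cases t
    · left
      simp
    · right
      simp [hb]
  have rX : Rv 2 (-X : ℤ[X]) (-1) := rv_neg' sp_two.2
  refine ⟨F * expand ℤ n 1 + G * expand ℤ n X, F' * expand ℤ n X + G' * expand ℤ n 1,
    F * expand ℤ n 1 + G * expand ℤ n (-X), F' * expand ℤ n X + G' * expand ℤ n (-1),
    ⟨blk_pm h0 hF hG c1 c2 (hc X 1 (Or.inl rfl) (by simp)),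
      blk_pm h0 hF hG c1 rX.2.1 (hc (-X) (-1) (Or.inr rfl) (by simp)),
      blk_rv h0 rF rG sp_two.1 sp_two.2, blk_rv h0 rF rG sp_two.1 rX, ?_⟩, ?_, ?_, ?_, ?_⟩
  · have e2 : (F * expand ℤ n 1 + G * expand ℤ n X) * (F' * expand ℤ n X + G' * expand ℤ n 1) +
        (F * expand ℤ n 1 + G * expand ℤ n (-X)) * (F' * expand ℤ n X + G' * expand ℤ n (-1)) =
        (F * F' + G * G') * (C 2 * X ^ n) := by
      rw [map_neg, map_neg, map_one, expand_X, show (C (2 : ℤ) : ℤ[X]) = 2 from rfl]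
      ring
    rw [e2, e, show n * 2 - 1 = (n - 1) + n by omega, pow_add, Nat.cast_mul, Nat.cast_two]
    simp only [C_mul]
    ring
  · rw [eval_add, eval_mul, eval_mul, ev_one, ev_one, h1, h2]
    simp
  · rw [eval_add, eval_mul, eval_mul, ev_one, ev_one, h1, h2]
    simp
    ring
  · rw [eval_add, eval_mul, eval_mul, ev_neg hn, ev_neg hn, h3, h4]
    simp
  · rw [eval_add, eval_mul, eval_mul, ev_neg hn, ev_neg hn, h3, h4]
    simp
    ring

end Pool.Agent.Bsg
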